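import Pool.Agent.Helper30.PB.St

/-!
# Project PB, module PRP: the sieve for one and for two linear forms
-/

set_option autoImplicit false

noncomputable section

namespace Pool.Agent.Helper8.PB

open Finset ArithmeticFunction
open Pool.Agent.Helper30.PB
open Pool.Agent.Helper93.KN (ff StSieve StAvg)
open Pool.Agent.Helper48.BK (StSW th)

open Classical in
/-- the classes `s < l` with `l ∣ 2 Q s + h`, if `l` does not divide `2 Q` -/
private def R (Q h l : ℕ) : Finset ℕ :=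
  (range l).filter (fun s => ((2 * Q : ℕ) : ZMod l) ≠ 0 ∧
    ((2 * Q : ℕ) : ZMod l) * (s : ZMod l) + (h : ZMod l) = 0)

private theorem mem_R {Q h l s : ℕ} :
    s ∈ R Q h l ↔ s < l ∧ ((2 * Q : ℕ) : ZMod l) ≠ 0 ∧
      ((2 * Q : ℕ) : ZMod l) * (s : ZMod l) + (h : ZMod l) = 0 := by
  unfold R
  rw [mem_filter, mem_range]

private theorem R_card_le (Q h : ℕ) {l : ℕ} (hl : l.Prime) : (R Q h l).card ≤ 1 := by
  have : Fact l.Prime := ⟨hl⟩
  rw [Finset.card_le_one]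
  intro s hs t ht
  obtain ⟨h1, h0, h2⟩ := mem_R.1 hs
  obtain ⟨h3, -, h4⟩ := mem_R.1 ht
  have h5 : (s : ZMod l) = t := by
    have h6 : ((2 * Q : ℕ) : ZMod l) * (s : ZMod l) = ((2 * Q : ℕ) : ZMod l) * (t : ZMod l) :=
      add_right_cancel (h2.trans h4.symm)
    exact mul_left_cancel₀ h0 h6
  rw [ZMod.natCast_eq_natCast_iff'] at h5
  rwa [Nat.mod_eq_of_lt h1, Nat.mod_eq_of_lt h3] at h5

private theorem R_card_eq (Q h : ℕ) {l : ℕ} (hl : l.Prime) (hb : ¬ l ∣ 2 * Q) :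
    (R Q h l).card = 1 := by
  have : Fact l.Prime := ⟨hl⟩
  have hb0 : ((2 * Q : ℕ) : ZMod l) ≠ 0 := fun h => hb ((ZMod.natCast_eq_zero_iff _ _).1 h)
  refine le_antisymm (R_card_le Q h hl)
    (card_pos.2 ⟨(-(((2 * Q : ℕ) : ZMod l)⁻¹ * (h : ZMod l))).val, ?_⟩)
  rw [mem_R, ZMod.natCast_zmod_val]
  refine ⟨ZMod.val_lt _, hb0, ?_⟩
  rw [mul_neg, ← mul_assoc, mul_inv_cancel₀ hb0, one_mul, neg_add_cancel]

private theorem R_disj {Q h h' l : ℕ} (hn : ¬ l ∣ 2 * Q * ((h : ℤ) - h').natAbs) :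
    Disjoint (R Q h l) (R Q h' l) := by
  rw [Finset.disjoint_left]
  intro s hs ht
  obtain ⟨-, -, h2⟩ := mem_R.1 hs
  obtain ⟨-, -, h4⟩ := mem_R.1 ht
  have h5 : (h : ZMod l) = h' := add_left_cancel (h2.trans h4.symm)
  apply hn
  have h7 : (l : ℤ) ∣ (h : ℤ) - h' := by
    rw [← ZMod.intCast_zmod_eq_zero_iff_dvd]
    push_cast
    rw [h5, sub_self]
  have h8 : l ∣ ((h : ℤ) - h').natAbs := Int.natCast_dvd.1 h7
  exact h8.mul_left _

private theorem one_le_ff (m : ℕ) : 1 ≤ ff m := by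
  unfold ff
  refine Finset.prod_induction _ (fun x : ℝ => 1 ≤ x)
    (fun a b ha hb => one_le_mul_of_one_le_of_one_le ha hb) le_rfl ?_
  intro l _
  have : (0 : ℝ) ≤ 4 / (l : ℝ) := by positivity
  linarith

/-- if `2 Q n + h` is prime and is hit by the sieve then it is small -/
private theorem hit {Q h n l : ℕ} (hl : l.Prime) (hp : (2 * Q * n + h).Prime)
    (h' : n % l ∈ R Q h l) : 2 * Q * n + h = l := by
  obtain ⟨-, -, h2⟩ := mem_R.1 h'
  have h6 : l ∣ 2 * Q * n + h := by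
    rw [← ZMod.natCast_eq_zero_iff, Nat.cast_add, Nat.cast_mul (2 * Q) n]
    rw [ZMod.natCast_mod] at h2
    exact h2
  exact ((Nat.prime_dvd_prime_iff_eq hl hp).1 h6).symm

/-- few `n` give a small prime -/
private theorem few (Q h N : ℕ) (hQ : 1 ≤ Q) (Y : ℝ) (hY : 0 ≤ Y) :
    (((Icc 1 N).filter (fun n : ℕ => (2 * Q * n + h).Prime ∧
      ((2 * Q * n + h : ℕ) : ℝ) ≤ Y)).card : ℝ) ≤ Y + 1 := by
  have hsub : (Icc 1 N).filter (fun n : ℕ => (2 * Q * n + h).Prime ∧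
      ((2 * Q * n + h : ℕ) : ℝ) ≤ Y) ⊆ Icc 1 ⌊Y⌋₊ := by
    intro n hn
    obtain ⟨hn1, -, hy⟩ := mem_filter.1 hn
    have h1 : 2 * Q * n + h ≤ ⌊Y⌋₊ := Nat.le_floor hy
    have h3 : n ≤ 2 * Q * n := Nat.le_mul_of_pos_left _ (by omega)
    rw [mem_Icc] at hn1 ⊢
    omega
  have h1 := card_le_card hsub
  rw [Nat.card_Icc, Nat.add_sub_cancel] at h1
  have h3 : ((⌊Y⌋₊ : ℕ) : ℝ) ≤ Y := Nat.floor_le hY
  have h4 : (((Icc 1 N).filter (fun n : ℕ => (2 * Q * n + h).Prime ∧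
      ((2 * Q * n + h : ℕ) : ℝ) ≤ Y)).card : ℝ) ≤ ((⌊Y⌋₊ : ℕ) : ℝ) := by exact_mod_cast h1
  linarith

/-- comparison of the error with the main term -/
private theorem small {N : ℕ} (hN : 2 ≤ N) {δ : ℝ} (hδ : δ ≤ 1 / 4) :
    (N : ℝ) ^ δ + 1 ≤ 8 * (N / Real.log N) ∧ (N : ℝ) ^ δ + 1 ≤ 32 * (N / Real.log N ^ 2) := by
  have hN1 : (1 : ℝ) < N := by exact_mod_cast (by omega : 1 < N)
  have hlog : 0 < Real.log N := Real.log_pos hN1
  set t : ℝ := (N : ℝ) ^ (1 / 4 : ℝ) with ht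
  have ht1 : 1 ≤ t := Real.one_le_rpow hN1.le (by norm_num)
  have h1 : (N : ℝ) ^ δ ≤ t := Real.rpow_le_rpow_of_exponent_le hN1.le hδ
  have h2 : Real.log N ≤ 4 * t := by
    have h3 := Real.log_le_rpow_div (x := (N : ℝ)) (by linarith) (ε := 1 / 4) (by norm_num)
    rw [← ht] at h3
    linarith
  have h4 : (N : ℝ) = t ^ 4 := by
    rw [ht, ← Real.rpow_natCast, ← Real.rpow_mul (by linarith)]
    norm_num
  have h5 : t ≤ t ^ 3 := by nlinarith [mul_nonneg (sub_nonneg.2 ht1) (sub_nonneg.2 ht1)]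
  have h6 : t ≤ t ^ 2 := by nlinarith
  have h7 : t ^ 3 / 4 ≤ N / Real.log N := by
    rw [le_div_iff₀ hlog, h4]
    have h8 : t ^ 3 / 4 * Real.log N ≤ t ^ 3 / 4 * (4 * t) :=
      mul_le_mul_of_nonneg_left h2 (by positivity)
    calc t ^ 3 / 4 * Real.log (t ^ 4) = t ^ 3 / 4 * Real.log N := by rw [h4]
      _ ≤ t ^ 3 / 4 * (4 * t) := h8
      _ = t ^ 4 := by ring
  have h9 : t ^ 2 / 16 ≤ N / Real.log N ^ 2 := by
    rw [le_div_iff₀ (by positivity)]
    have h8 : Real.log N ^ 2 ≤ (4 * t) ^ 2 := pow_le_pow_left₀ hlog.le h2 2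
    have h10 : t ^ 2 / 16 * Real.log N ^ 2 ≤ t ^ 2 / 16 * (4 * t) ^ 2 :=
      mul_le_mul_of_nonneg_left h8 (by positivity)
    calc t ^ 2 / 16 * Real.log N ^ 2 ≤ t ^ 2 / 16 * (4 * t) ^ 2 := h10
      _ = t ^ 4 := by ring
      _ = N := h4.symm
  constructor
  · linarith
  · linarith

open Classical in
/-- Module PRP. -/
theorem hPRP (hS : StSieve) : StPRP := by
  obtain ⟨C₁, δ₁, hC₁, hδ₁, hδ₁', h1⟩ := hS 1 le_rfl (by norm_num)
  obtain ⟨C₂, δ₂, hC₂, hδ₂, hδ₂', h2⟩ := hS 2 (by norm_num) le_rfl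
  refine ⟨C₁ + C₂ + 64, by positivity, ?_⟩
  intro Q h h' N hQ hN
  have hN1 : (1 : ℝ) < N := by exact_mod_cast (by omega : 1 < N)
  have hlog : 0 < Real.log N := Real.log_pos hN1
  constructor
  · -- one form
    have hs := h1 N hN (R Q h) (2 * Q) (by omega) (fun l hl _ => ⟨fun s hs => (mem_R.1 hs).1,
      R_card_le Q h hl, fun h'' => R_card_eq Q h hl h''⟩)
    have hfew := few Q h N hQ ((N : ℝ) ^ δ₁) (by positivity)
    have hsub : (Icc 1 N).filter (fun n : ℕ => (2 * Q * n + h).Prime) ⊆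
        ((Icc 1 N).filter (fun n : ℕ => ∀ l : ℕ, l.Prime → 5 ≤ l → (l : ℝ) ≤ (N : ℝ) ^ δ₁ →
          n % l ∉ R Q h l)) ∪
        ((Icc 1 N).filter (fun n : ℕ => (2 * Q * n + h).Prime ∧
          ((2 * Q * n + h : ℕ) : ℝ) ≤ (N : ℝ) ^ δ₁)) := by
      intro n hn
      obtain ⟨hn1, hp⟩ := mem_filter.1 hn
      by_cases hcase : ∀ l : ℕ, l.Prime → 5 ≤ l → (l : ℝ) ≤ (N : ℝ) ^ δ₁ → n % l ∉ R Q h l
      · exact mem_union_left _ (mem_filter.2 ⟨hn1, hcase⟩)
      · push Not at hcase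
        obtain ⟨l, hl, _, hlN, hmem⟩ := hcase
        refine mem_union_right _ (mem_filter.2 ⟨hn1, hp, ?_⟩)
        rw [hit hl hp hmem]
        exact hlN
    have hcard : (((Icc 1 N).filter (fun n : ℕ => (2 * Q * n + h).Prime)).card : ℝ) ≤
        (((Icc 1 N).filter (fun n : ℕ => ∀ l : ℕ, l.Prime → 5 ≤ l → (l : ℝ) ≤ (N : ℝ) ^ δ₁ →
          n % l ∉ R Q h l)).card : ℝ) + (((Icc 1 N).filter (fun n : ℕ =>
          (2 * Q * n + h).Prime ∧ ((2 * Q * n + h : ℕ) : ℝ) ≤ (N : ℝ) ^ δ₁)).card : ℝ) := by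
      exact_mod_cast (card_le_card hsub).trans (card_union_le _ _)
    have hsm := (small hN hδ₁').1
    have hff := one_le_ff (2 * Q)
    rw [pow_one] at hs
    have hX : 0 ≤ (N : ℝ) / Real.log N := by positivity
    have h3 : 8 * ((N : ℝ) / Real.log N) ≤ (C₂ + 64) * (N / Real.log N) * ff (2 * Q) := by
      have h4 : 8 * ((N : ℝ) / Real.log N) ≤ (C₂ + 64) * (N / Real.log N) :=
        mul_le_mul_of_nonneg_right (by linarith) hX
      have h5 : (C₂ + 64) * ((N : ℝ) / Real.log N) * 1 ≤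
          (C₂ + 64) * (N / Real.log N) * ff (2 * Q) :=
        mul_le_mul_of_nonneg_left hff (by positivity)
      linarith
    have h6 : (C₁ + C₂ + 64) * ((N : ℝ) / Real.log N) * ff (2 * Q) =
        C₁ * (N / Real.log N) * ff (2 * Q) + (C₂ + 64) * (N / Real.log N) * ff (2 * Q) := by ring
    rw [h6]
    linarith
  · -- two forms
    intro hbc
    have hE : 2 * Q * ((h : ℤ) - h').natAbs ≠ 0 := by
      have h3 : ((h : ℤ) - h').natAbs ≠ 0 := by omega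
      exact mul_ne_zero (by omega) h3
    have hs := h2 N hN (fun l => R Q h l ∪ R Q h' l) (2 * Q * ((h : ℤ) - h').natAbs) hE
      (fun l hl _ => ⟨fun s hs => by
        rcases mem_union.1 hs with h | h
        · exact (mem_R.1 h).1
        · exact (mem_R.1 h).1, by
        have h3 := card_union_le (R Q h l) (R Q h' l)
        have h4 := R_card_le Q h hl
        have h5 := R_card_le Q h' hl
        omega, fun hn => by
        have hb' : ¬ l ∣ 2 * Q := fun h' => hn (h'.mul_right _)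
        rw [card_union_of_disjoint (R_disj hn), R_card_eq Q h hl hb', R_card_eq Q h' hl hb']⟩)
    have hfb := few Q h N hQ ((N : ℝ) ^ δ₂) (by positivity)
    have hfc := few Q h' N hQ ((N : ℝ) ^ δ₂) (by positivity)
    have hsub : (Icc 1 N).filter (fun n : ℕ => (2 * Q * n + h).Prime ∧
        (2 * Q * n + h').Prime) ⊆
        ((Icc 1 N).filter (fun n : ℕ => ∀ l : ℕ, l.Prime → 5 ≤ l → (l : ℝ) ≤ (N : ℝ) ^ δ₂ →
          n % l ∉ R Q h l ∪ R Q h' l)) ∪
        (((Icc 1 N).filter (fun n : ℕ => (2 * Q * n + h).Prime ∧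
          ((2 * Q * n + h : ℕ) : ℝ) ≤ (N : ℝ) ^ δ₂)) ∪
        ((Icc 1 N).filter (fun n : ℕ => (2 * Q * n + h').Prime ∧
          ((2 * Q * n + h' : ℕ) : ℝ) ≤ (N : ℝ) ^ δ₂))) := by
      intro n hn
      obtain ⟨hn1, hp, hp'⟩ := mem_filter.1 hn
      by_cases hcase : ∀ l : ℕ, l.Prime → 5 ≤ l → (l : ℝ) ≤ (N : ℝ) ^ δ₂ →
          n % l ∉ R Q h l ∪ R Q h' l
      · exact mem_union_left _ (mem_filter.2 ⟨hn1, hcase⟩)
      · push Not at hcase
        obtain ⟨l, hl, _, hlN, hmem⟩ := hcase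
        rcases mem_union.1 hmem with h3 | h3
        · refine mem_union_right _ (mem_union_left _ (mem_filter.2 ⟨hn1, hp, ?_⟩))
          rw [hit hl hp h3]
          exact hlN
        · refine mem_union_right _ (mem_union_right _ (mem_filter.2 ⟨hn1, hp', ?_⟩))
          rw [hit hl hp' h3]
          exact hlN
    have hcard : (((Icc 1 N).filter (fun n : ℕ => (2 * Q * n + h).Prime ∧
        (2 * Q * n + h').Prime)).card : ℝ) ≤
        (((Icc 1 N).filter (fun n : ℕ => ∀ l : ℕ, l.Prime → 5 ≤ l → (l : ℝ) ≤ (N : ℝ) ^ δ₂ →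
          n % l ∉ R Q h l ∪ R Q h' l)).card : ℝ) + ((((Icc 1 N).filter (fun n : ℕ =>
          (2 * Q * n + h).Prime ∧ ((2 * Q * n + h : ℕ) : ℝ) ≤ (N : ℝ) ^ δ₂)).card : ℝ) +
          (((Icc 1 N).filter (fun n : ℕ =>
          (2 * Q * n + h').Prime ∧ ((2 * Q * n + h' : ℕ) : ℝ) ≤ (N : ℝ) ^ δ₂)).card : ℝ)) := by
      exact_mod_cast (card_le_card hsub).trans ((card_union_le _ _).trans
        (Nat.add_le_add_left (card_union_le _ _) _))
    have hsm := (small hN hδ₂').2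
    have hff := one_le_ff (2 * Q * ((h : ℤ) - h').natAbs)
    have hX : 0 ≤ (N : ℝ) / Real.log N ^ 2 := by positivity
    have h3 : 64 * ((N : ℝ) / Real.log N ^ 2) ≤
        (C₁ + 64) * (N / Real.log N ^ 2) * ff (2 * Q * ((h : ℤ) - h').natAbs) := by
      have h4 : 64 * ((N : ℝ) / Real.log N ^ 2) ≤ (C₁ + 64) * (N / Real.log N ^ 2) :=
        mul_le_mul_of_nonneg_right (by linarith) hX
      have h5 : (C₁ + 64) * ((N : ℝ) / Real.log N ^ 2) * 1 ≤
          (C₁ + 64) * (N / Real.log N ^ 2) * ff (2 * Q * ((h : ℤ) - h').natAbs) :=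
        mul_le_mul_of_nonneg_left hff (by positivity)
      linarith
    have h6 : (C₁ + C₂ + 64) * ((N : ℝ) / Real.log N ^ 2) * ff (2 * Q * ((h : ℤ) - h').natAbs) =
        C₂ * (N / Real.log N ^ 2) * ff (2 * Q * ((h : ℤ) - h').natAbs) +
        (C₁ + 64) * (N / Real.log N ^ 2) * ff (2 * Q * ((h : ℤ) - h').natAbs) := by ring
    rw [h6]
    linarith

end Pool.Agent.Helper8.PB
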