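import Pool.Agent.Helper58.PB.StM

/-!
# MP_3923f3_nt, project PB, module AVV: variation of the averages
-/

set_option autoImplicit false

namespace Pool.Agent.Helper8.PB

open Finset
open Pool.Agent.Helper58.PB
open Pool.Agent.Helper48.BK (ex th Sx nd)
open Pool.Agent.Helper23.MV (PCh)

private lemma shift_AVV (F : ℕ → ℂ) (K m : ℕ) :
    ∑ j ∈ range (K + 1), F (m + 1 - j) =
      F (m + 1) + ∑ j ∈ range (K + 1), F (m - j) - F (m - K) := by
  rw [sum_range_succ', sum_range_succ (fun j => F (m - j))]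
  simp only [Nat.add_sub_add_right, Nat.sub_zero]
  ring

private lemma term_AVV (c : PCh) (k m : ℕ) (hk : k ≤ m) :
    ‖((th k : ℝ) : ℂ) * c.ev k‖ ≤ Real.log m := by
  have h1 : ‖c.ev k‖ ≤ 1 := DirichletCharacter.norm_le_one c.χ _
  have hm : (0 : ℝ) ≤ Real.log m := Real.log_natCast_nonneg m
  have h2 : ‖((th k : ℝ) : ℂ)‖ ≤ Real.log m := by
    rw [Complex.norm_real, Real.norm_eq_abs]
    unfold th
    split_ifs with hp
    · rw [abs_of_nonneg (Real.log_natCast_nonneg k)]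
      have : (0 : ℝ) < k := by exact_mod_cast hp.pos
      exact Real.log_le_log this (by exact_mod_cast hk)
    · simpa using hm
  rw [norm_mul]
  calc _ ≤ Real.log m * 1 := mul_le_mul h2 h1 (norm_nonneg _) hm
    _ = Real.log m := mul_one _

private lemma step_AVV (c : PCh) (L m : ℕ) (hL : 1 ≤ L) :
    ‖Av c L m - Av c L (m + 1)‖ ≤ 2 * Real.log ((m + 1 : ℕ) : ℝ) / L := by
  obtain ⟨K, rfl⟩ : ∃ K, L = K + 1 := ⟨L - 1, by omega⟩
  have hL0 : (0 : ℝ) < ((K + 1 : ℕ) : ℝ) := by positivity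
  have h1 : Av c (K + 1) m - Av c (K + 1) (m + 1) = (1 / (((K + 1 : ℕ) : ℝ) : ℂ)) *
      (((th (m - K) : ℝ) : ℂ) * c.ev (m - K) - ((th (m + 1) : ℝ) : ℂ) * c.ev (m + 1)) := by
    have h2 := shift_AVV (fun k => ((th k : ℝ) : ℂ) * c.ev k) K m
    unfold Av
    rw [h2]
    push_cast
    ring
  rw [h1, norm_mul, norm_div, norm_one, Complex.norm_real, Real.norm_eq_abs, abs_of_pos hL0]
  have h3 := term_AVV c (m - K) (m + 1) (by omega)
  have h4 := term_AVV c (m + 1) (m + 1) le_rfl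
  have h5 : ‖((th (m - K) : ℝ) : ℂ) * c.ev (m - K) - ((th (m + 1) : ℝ) : ℂ) * c.ev (m + 1)‖ ≤
      2 * Real.log ((m + 1 : ℕ) : ℝ) := (norm_sub_le _ _).trans (by linarith)
  calc 1 / ((K + 1 : ℕ) : ℝ) * _ ≤ 1 / ((K + 1 : ℕ) : ℝ) * (2 * Real.log ((m + 1 : ℕ) : ℝ)) :=
        mul_le_mul_of_nonneg_left h5 (by positivity)
    _ = 2 * Real.log ((m + 1 : ℕ) : ℝ) / ((K + 1 : ℕ) : ℝ) := by ring

theorem hAvv : StAvv := by
  intro c L n n' hL hn
  have hL0 : (0 : ℝ) < (L : ℝ) := by exact_mod_cast hL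
  induction n', hn using Nat.le_induction with
  | base => simp
  | succ m hm ih =>
    have h1 := step_AVV c L m hL
    have h2 : ‖Av c L n - Av c L (m + 1)‖ ≤
        ‖Av c L n - Av c L m‖ + ‖Av c L m - Av c L (m + 1)‖ := norm_sub_le_norm_sub_add_norm_sub _ _ _
    have h3 : 2 * ((m : ℝ) - n) * Real.log m / L ≤
        2 * ((m : ℝ) - n) * Real.log ((m + 1 : ℕ) : ℝ) / L := by
      have h4 : Real.log m ≤ Real.log ((m + 1 : ℕ) : ℝ) := by
        rcases Nat.eq_zero_or_pos m with h0 | h0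
        · subst h0
          simp
        · exact Real.log_le_log (by exact_mod_cast h0) (by push_cast; linarith)
      have h5 : (0 : ℝ) ≤ (m : ℝ) - n := by
        have : (n : ℝ) ≤ m := by exact_mod_cast hm
        linarith
      gcongr
    calc ‖Av c L n - Av c L (m + 1)‖ ≤ 2 * ((m : ℝ) - n) * Real.log ((m + 1 : ℕ) : ℝ) / L +
          2 * Real.log ((m + 1 : ℕ) : ℝ) / L := by linarith
      _ = 2 * (((m + 1 : ℕ) : ℝ) - n) * Real.log ((m + 1 : ℕ) : ℝ) / L := by
        push_cast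
        ring

end Pool.Agent.Helper8.PB
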