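import Pool.Agent.Helper58.PB.StS

/-!
# MP_3923f3_nt, project PB, module MID

The primes near fractions with denominator in `(P, D]`, and far from all fractions with denominator
`≤ D`.
-/

set_option autoImplicit false

namespace Pool.Agent.Helper8.PB

open Finset
open Pool.Agent.Helper58.PB
open Pool.Agent.Helper48.BK (ex th Sx nd)

/-- `P^5000 ≤ X` -/
private lemma pow_MID {P : ℝ} {X : ℕ} (hP : 2 ≤ P) (hX : P ≤ (X : ℝ) ^ (1 / 5000 : ℝ)) :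
    P ^ 5000 ≤ (X : ℝ) := by
  have h0 : (0 : ℝ) ≤ (X : ℝ) := Nat.cast_nonneg X
  have h1 : P ^ 5000 ≤ ((X : ℝ) ^ (1 / 5000 : ℝ)) ^ 5000 := pow_le_pow_left₀ (by linarith) hX 5000
  have h2 : ((X : ℝ) ^ (1 / 5000 : ℝ)) ^ 5000 = (X : ℝ) := by
    rw [← Real.rpow_natCast, ← Real.rpow_mul h0]
    norm_num
  rwa [h2] at h1

/-- `P^k ≤ X` for `k ≤ 5000` -/
private lemma powk_MID {P : ℝ} {X : ℕ} (hP : 2 ≤ P) (hX : P ≤ (X : ℝ) ^ (1 / 5000 : ℝ)) (k : ℕ)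
    (hk : k ≤ 5000) : P ^ k ≤ (X : ℝ) :=
  (pow_le_pow_right₀ (by linarith) hk).trans (pow_MID hP hX)

private lemma tp_MID {P : ℝ} {X : ℕ} (hP : 2 ≤ P) (hX : P ≤ (X : ℝ) ^ (1 / 5000 : ℝ)) :
    P ^ 10 ≤ (X : ℝ) ^ (1 / 10 : ℝ) := by
  have h1 : P ^ 100 ≤ (X : ℝ) := powk_MID hP hX 100 (by norm_num)
  have h0 : (0 : ℝ) ≤ P := by linarith
  have h2 : (P ^ 100) ^ (1 / 10 : ℝ) ≤ (X : ℝ) ^ (1 / 10 : ℝ) :=
    Real.rpow_le_rpow (by positivity) h1 (by norm_num)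
  have h3 : (P ^ 100) ^ (1 / 10 : ℝ) = P ^ 10 := by
    rw [← Real.rpow_natCast P 100, ← Real.rpow_mul h0, ← Real.rpow_natCast P 10]
    norm_num
  rwa [h3] at h2

/-- `D = ⌊P⌋ Q`: sizes -/
private lemma size_MID {P : ℝ} {X Q : ℕ} (hP : 2 ≤ P) (hX : P ≤ (X : ℝ) ^ (1 / 5000 : ℝ))
    (hQ : (Q : ℝ) ≤ P ^ 50) (hQ' : P ^ 49 ≤ (Q : ℝ)) :
    1 ≤ ((⌊P⌋₊ * Q : ℕ) : ℝ) ∧ ⌊P⌋₊ ≤ ⌊P⌋₊ * Q ∧
      2 * ((⌊P⌋₊ * Q : ℕ) : ℝ) ^ 2 * P ^ 10 < X ∧ 2 * ((⌊P⌋₊ * Q : ℕ) : ℝ) * P ^ 10 < X := by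
  have h0 : (0 : ℝ) < P := by linarith
  have hQ1 : 1 ≤ Q := by
    have : (0 : ℝ) < Q := lt_of_lt_of_le (by positivity) hQ'
    exact_mod_cast this
  have hfl : 1 ≤ ⌊P⌋₊ := by
    rw [Nat.one_le_floor_iff]
    linarith
  have hD1 : 1 ≤ ⌊P⌋₊ * Q := Nat.one_le_iff_ne_zero.mpr (by positivity)
  have hD1' : (1 : ℝ) ≤ ((⌊P⌋₊ * Q : ℕ) : ℝ) := by exact_mod_cast hD1
  have hD : ((⌊P⌋₊ * Q : ℕ) : ℝ) ≤ P ^ 51 := by
    push_cast
    have h1 : (⌊P⌋₊ : ℝ) ≤ P := Nat.floor_le h0.le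
    calc (⌊P⌋₊ : ℝ) * Q ≤ P * P ^ 50 := mul_le_mul h1 hQ (by positivity) h0.le
      _ = P ^ 51 := by ring
  have hX200 : P ^ 114 ≤ (X : ℝ) := powk_MID hP hX 114 (by norm_num)
  set D : ℝ := ((⌊P⌋₊ * Q : ℕ) : ℝ) with hDdef
  have h2 : D ^ 2 ≤ P ^ 102 := by
    calc D ^ 2 ≤ (P ^ 51) ^ 2 := pow_le_pow_left₀ (by linarith) hD 2
      _ = P ^ 102 := by ring
  have h3 : 2 * D ^ 2 * P ^ 10 < X := by
    calc 2 * D ^ 2 * P ^ 10 ≤ P * P ^ 102 * P ^ 10 := by gcongr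
      _ = P ^ 113 := by ring
      _ < P ^ 114 := pow_lt_pow_right₀ (by linarith) (by norm_num)
      _ ≤ X := hX200
  refine ⟨hD1', Nat.le_mul_of_pos_right _ hQ1, h3, lt_of_le_of_lt ?_ h3⟩
  have h4 : D ≤ D ^ 2 := by nlinarith
  have h5 : 0 ≤ P ^ 10 := by positivity
  nlinarith

/-- the final bound -/
private lemma fin_MID {P C : ℝ} {X : ℕ} (hP : 2 ≤ P) (hC : 1 ≤ C) (hPC : C ^ 25 ≤ P) (hX1 : 1 ≤ X)
    (hl : Real.log X ≤ P ^ (1 / 100 : ℝ)) :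
    C * X * P ^ (-(1 / 2) : ℝ) * Real.log X ^ 6 ≤ X * P ^ (-(2 / 5) : ℝ) := by
  have h0 : (0 : ℝ) < P := by linarith
  have hl0 : 0 ≤ Real.log X := Real.log_nonneg (by exact_mod_cast hX1)
  have h1 : Real.log X ^ 6 ≤ P ^ (6 / 100 : ℝ) := by
    calc Real.log X ^ 6 ≤ (P ^ (1 / 100 : ℝ)) ^ 6 := pow_le_pow_left₀ hl0 hl 6
      _ = P ^ (6 / 100 : ℝ) := by
        rw [← Real.rpow_natCast, ← Real.rpow_mul h0.le]
        norm_num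
  have h2 : C ≤ P ^ (1 / 25 : ℝ) := by
    have h3 : (C ^ 25) ^ (1 / 25 : ℝ) ≤ P ^ (1 / 25 : ℝ) :=
      Real.rpow_le_rpow (by positivity) hPC (by norm_num)
    have h4 : (C ^ 25) ^ (1 / 25 : ℝ) = C := by
      rw [← Real.rpow_natCast, ← Real.rpow_mul (by linarith)]
      norm_num
    rwa [h4] at h3
  have h5 : (0 : ℝ) ≤ P ^ (-(1 / 2) : ℝ) := Real.rpow_nonneg h0.le _
  calc C * X * P ^ (-(1 / 2) : ℝ) * Real.log X ^ 6
      ≤ P ^ (1 / 25 : ℝ) * X * P ^ (-(1 / 2) : ℝ) * P ^ (6 / 100 : ℝ) := by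
        gcongr
    _ = X * (P ^ (1 / 25 : ℝ) * P ^ (-(1 / 2) : ℝ) * P ^ (6 / 100 : ℝ)) := by ring
    _ = X * P ^ (-(2 / 5) : ℝ) := by
        rw [← Real.rpow_add h0, ← Real.rpow_add h0]
        norm_num

/-- fractions with a small denominator are far from `a₀/q₀ + β` -/
private lemma far_MID {P : ℝ} {X q₀ a₀ q D : ℕ} {a : ℤ} {β : ℝ}
    (hX0 : 0 < X) (hD : 1 ≤ D) (hqD : q ≤ D) (hq : 1 ≤ q) (hqq : q < q₀) (hq₀ : q₀ ≤ D)
    (hc : Nat.Coprime a₀ q₀) (hβ : |β| ≤ 1 / (2 * (D : ℝ) ^ 2)) (hlt : 2 * (D : ℝ) * P ^ 10 < X) :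
    P ^ 10 / (q * X) < |(a₀ : ℝ) / q₀ + β - a / q| := by
  have hq0 : (0 : ℝ) < q := by exact_mod_cast hq
  have hq₀0 : (0 : ℝ) < q₀ := by
    have : 0 < q₀ := by omega
    exact_mod_cast this
  have hD0 : (0 : ℝ) < D := by exact_mod_cast hD
  have hXr : (0 : ℝ) < X := by exact_mod_cast hX0
  have hne : (a₀ : ℤ) * q - a * q₀ ≠ 0 := by
    intro h
    have h1 : (q₀ : ℤ) ∣ (a₀ : ℤ) * q := ⟨a, by linarith⟩
    have h2 : q₀ ∣ a₀ * q := by exact_mod_cast h1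
    have h3 : q₀ ∣ q := (Nat.Coprime.symm hc).dvd_of_dvd_mul_left h2
    exact absurd (Nat.le_of_dvd (by omega) h3) (by omega)
  have h1 : (1 : ℝ) ≤ |(a₀ : ℝ) * q - a * q₀| := by
    have : (1 : ℤ) ≤ |(a₀ : ℤ) * q - a * q₀| := Int.one_le_abs hne
    exact_mod_cast this
  have h2 : 1 / ((q : ℝ) * q₀) ≤ |(a₀ : ℝ) / q₀ - a / q| := by
    have h3 : (a₀ : ℝ) / q₀ - a / q = ((a₀ : ℝ) * q - a * q₀) / (q * q₀) := by
      field_simp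
    rw [h3, abs_div, abs_of_pos (mul_pos hq0 hq₀0)]
    exact div_le_div_of_nonneg_right h1 (mul_pos hq0 hq₀0).le
  have h3 : 1 / ((q : ℝ) * D) ≤ 1 / ((q : ℝ) * q₀) := by
    apply one_div_le_one_div_of_le (mul_pos hq0 hq₀0)
    have : (q₀ : ℝ) ≤ D := by exact_mod_cast hq₀
    exact mul_le_mul_of_nonneg_left this hq0.le
  have h4 : 1 / (2 * (D : ℝ) ^ 2) ≤ 1 / (2 * ((q : ℝ) * D)) := by
    apply one_div_le_one_div_of_le (by positivity)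
    have : (q : ℝ) ≤ D := by exact_mod_cast hqD
    nlinarith
  have h5 : 1 / (2 * ((q : ℝ) * D)) = 1 / ((q : ℝ) * D) / 2 := by
    field_simp
  have h6 : |(a₀ : ℝ) / q₀ - a / q| ≤ |(a₀ : ℝ) / q₀ + β - a / q| + |β| := by
    have h7 : (a₀ : ℝ) / q₀ - a / q = ((a₀ : ℝ) / q₀ + β - a / q) - β := by ring
    calc |(a₀ : ℝ) / q₀ - a / q| = |((a₀ : ℝ) / q₀ + β - a / q) - β| := by rw [← h7]
      _ ≤ _ := abs_sub _ _
  have h8 : P ^ 10 / (q * X) < 1 / (2 * ((q : ℝ) * D)) := by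
    rw [div_lt_div_iff₀ (by positivity) (by positivity)]
    nlinarith
  linarith

theorem hMid : StVgn → StMid := by
  rintro ⟨C, X0, hC, hX0, H⟩
  refine ⟨max 2 (max (C ^ 25) X0), le_max_left _ _, ?_⟩
  intro P X Q y hP0 hPX hl hQ hQ' hy
  have hP : 2 ≤ P := (le_max_left _ _).trans hP0
  have hPC : C ^ 25 ≤ P := ((le_max_left _ _).trans (le_max_right _ _)).trans hP0
  have hPX0 : X0 ≤ P := ((le_max_right _ _).trans (le_max_right _ _)).trans hP0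
  have hP1X : P ≤ (X : ℝ) := by
    have := powk_MID hP hPX 1 (by norm_num)
    rwa [pow_one] at this
  have hX0X : X0 ≤ (X : ℝ) := hPX0.trans hP1X
  have hXpos : 0 < X := by
    have : (0 : ℝ) < X := by linarith
    exact_mod_cast this
  have hXr : (0 : ℝ) < X := by exact_mod_cast hXpos
  obtain ⟨hD1, hflD, hDX2, hDX1⟩ := size_MID hP hPX hQ hQ'
  have hTT : P ≤ P ^ 10 := by
    calc P = P ^ 1 := (pow_one P).symm
      _ ≤ P ^ 10 := pow_le_pow_right₀ (by linarith) (by norm_num)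
  have key : ∀ α : ℝ, (∀ (q : ℕ) (a : ℤ), 1 ≤ q → (q : ℝ) ≤ P → P ^ 10 / (q * X) < |α - a / q|) →
      ‖Sx th y α‖ ≤ X * P ^ (-(2 / 5) : ℝ) := fun α hα =>
    (H X y P (P ^ 10) α hX0X hy (by linarith) hTT (tp_MID hP hPX) hα).trans
      (fin_MID hP hC hPC hXpos hl)
  have hDN : 1 ≤ ⌊P⌋₊ * Q := by exact_mod_cast hD1
  refine ⟨?_, ?_⟩
  · intro q₀ a₀ β hPq hqD hc hβ
    refine key _ fun q a hq hqP => ?_
    have hqfl : q ≤ ⌊P⌋₊ := Nat.le_floor hqP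
    have hqq : q < q₀ := by
      have : (q : ℝ) < q₀ := lt_of_le_of_lt hqP hPq
      exact_mod_cast this
    exact far_MID hXpos hDN (hqfl.trans hflD) hq hqq hqD hc hβ hDX1
  · intro α hα
    refine key α fun q a hq hqP => ?_
    have hqfl : q ≤ ⌊P⌋₊ := Nat.le_floor hqP
    have hq0 : (0 : ℝ) < q := by exact_mod_cast hq
    have hq0' : (q : ℤ) ≠ 0 := by omega
    -- the representative of `a` modulo `q`
    have hmod : 0 ≤ a % q := Int.emod_nonneg a hq0'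
    obtain ⟨a', ha'⟩ := Int.eq_ofNat_of_zero_le hmod
    have hae : (a : ℝ) = a' + q * ((a / q : ℤ) : ℝ) := by
      have h1 : a % q + q * (a / q) = a := Int.emod_add_mul_ediv a q
      rw [ha'] at h1
      exact_mod_cast h1.symm
    have h1 := hα q a' hq (hqfl.trans hflD)
    have h2 : nd (α - (a' : ℝ) / q) ≤ |α - (a : ℝ) / q| := by
      have h3 : α - (a : ℝ) / q = (α - (a' : ℝ) / q) - ((a / q : ℤ) : ℝ) := by
        rw [hae]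
        field_simp
        ring
      rw [h3]
      unfold nd
      exact round_le _ _
    have h4 : P ^ 10 / (q * X) < 1 / (2 * ((⌊P⌋₊ * Q : ℕ) : ℝ) ^ 2) := by
      rw [div_lt_div_iff₀ (by positivity) (by positivity)]
      have h5 : (1 : ℝ) ≤ q := by exact_mod_cast hq
      nlinarith
    linarith

end Pool.Agent.Helper8.PB
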